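import Pool.Agent.Helper20.PFFinal

set_option autoImplicit false

open MeasureTheory
open scoped BigOperators ComplexConjugate
open Pool.Agent.Helper20.PF

namespace Pool.Agent.Results.MP_791321_mp.FermionsBind

/-- Polarisation vectors exist for every box and cutoff. -/
theorem exists_polarisation (L Λ : ℝ) : ∃ pol : Mode L Λ → E3, IsPolarisation pol := by
  have : Fact (Module.finrank ℝ E3 = 2 + 1) := ⟨by simp⟩
  have hk : ∀ n : Momentum L Λ, waveVector L n.1 ≠ 0 := by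
    intro n h
    have h1 := n.2.1
    rw [h, norm_zero] at h1
    exact lt_irrefl _ h1
  refine ⟨fun m => ((OrthonormalBasis.fromOrthogonalSpanSingleton (𝕜 := ℝ) 2 (hk m.1)) m.2 : E3), ?_, ?_⟩
  · intro n μ ν
    have h1 := (OrthonormalBasis.fromOrthogonalSpanSingleton (𝕜 := ℝ) 2 (hk n)).orthonormal
    have h2 := (orthonormal_iff_ite.mp h1) μ ν
    rw [Submodule.coe_inner] at h2
    exact h2
  · intro m
    have h1 := ((OrthonormalBasis.fromOrthogonalSpanSingleton (𝕜 := ℝ) 2 (hk m.1)) m.2).2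
    rw [Submodule.mem_orthogonal_singleton_iff_inner_left] at h1
    exact h1

/-- Two spin-1/2 particles bind: there are a coupling constant `α`, an ultraviolet cutoff `Λ` and
a gap `δ > 0` such that `E₀(2) ≤ 2 E₀(1) - δ` in every sufficiently large box, for every choice of
polarisation vectors. -/
theorem result : ∃ α Λ δ L₀ : ℝ, 0 < α ∧ 0 < Λ ∧ 0 < δ ∧ 0 < L₀ ∧
    ∀ L : ℝ, L₀ ≤ L →
      (∃ pol : Mode L Λ → E3, IsPolarisation pol) ∧
      ∀ pol : Mode L Λ → E3, IsPolarisation pol →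
        groundEnergy 2 α L Λ pol ≤ 2 * groundEnergy 1 α L Λ pol - δ := by
  obtain ⟨κ, hκ0, horb⟩ := exists_orbital
  set R : ℝ := 30000 * κ + 1 with hRdef
  have hR : 1 ≤ R := by rw [hRdef]; linarith
  have hR0 : 0 < R := by linarith
  set τ : ℝ := 1 / (3000 * R) with hτdef
  have hτ : 0 < τ := by rw [hτdef]; positivity
  have hRτ : R * τ = 1 / 3000 := by rw [hτdef]; field_simp
  set Λ : ℝ := τ / 10 with hΛdef
  have hΛ : 0 < Λ := by rw [hΛdef]; positivity
  have hpi := Real.pi_pos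
  set M0 : ℝ := (Λ / (2 * Real.pi)) ^ 3 with hM0def
  have hM0 : 0 < M0 := by rw [hM0def]; positivity
  set α : ℝ := 192 * τ ^ 2 / M0 with hαdef
  have hα : 0 < α := by rw [hαdef]; positivity
  set L₀ : ℝ := 6 * Real.pi / Λ with hL0def
  have hL0 : 0 < L₀ := by rw [hL0def]; positivity
  obtain ⟨φ, hφ, hφc, hφ0, hφR, hφκ⟩ := horb R hR0
  refine ⟨α, Λ, τ, L₀, hα, hΛ, hτ, hL0, ?_⟩
  intro L hL
  refine ⟨exists_polarisation L Λ, ?_⟩
  intro pol hp
  have hLpos : 0 < L := lt_of_lt_of_le hL0 hL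
  have : Finite (Momentum L Λ) := momentum_finite hLpos
  letI : Fintype (Momentum L Λ) := Fintype.ofFinite _
  have hρ : 3 ≤ L * Λ / (2 * Real.pi) := by
    rw [le_div_iff₀ (by positivity)]
    have h1 : L₀ * Λ = 6 * Real.pi := by rw [hL0def]; field_simp
    have h2 : L₀ * Λ ≤ L * Λ := mul_le_mul_of_nonneg_right hL hΛ.le
    linarith
  have hc1 := le_card hLpos hρ
  have hc2 := card_le hLpos (by linarith : 1 ≤ L * Λ / (2 * Real.pi))
  have hρ3 : (L * Λ / (2 * Real.pi)) ^ 3 = M0 * L ^ 3 := by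
    rw [hM0def]; field_simp
  rw [hρ3] at hc1 hc2
  have hL3 : 0 < L ^ 3 := by positivity
  have hmu1 : M0 / 24 ≤ muL L Λ := by
    unfold muL
    rw [le_div_iff₀ hL3]
    linarith
  have hmu2 : muL L Λ ≤ 18 * M0 := by
    unfold muL
    rw [div_le_iff₀ hL3]
    linarith
  have hmu : 0 < muL L Λ := by
    have : 0 < M0 / 24 := by positivity
    linarith
  set q : ℝ := Real.sqrt (α * muL L Λ / 8) with hq
  have hq2 : q ^ 2 = α * muL L Λ / 8 := by rw [hq]; exact Real.sq_sqrt (by positivity)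
  have hαM : α * M0 = 192 * τ ^ 2 := by rw [hαdef]; field_simp
  have hqlo : τ ≤ q := by
    rw [hq]
    apply Real.le_sqrt_of_sq_le
    have h1 : α * (M0 / 24) ≤ α * muL L Λ := mul_le_mul_of_nonneg_left hmu1 hα.le
    nlinarith
  have hq0 : 0 < q := by linarith
  have hqhi : q ^ 2 ≤ 441 * τ ^ 2 := by
    rw [hq2]
    have h1 : α * muL L Λ ≤ α * (18 * M0) := mul_le_mul_of_nonneg_left hmu2 hα.le
    nlinarith
  have hqΛ : Λ < 4 * q := by rw [hΛdef]; linarith
  have hcore := binding_core hLpos hΛ pol hp hmu α q R (τ / 10) (κ / R ^ 2) hα (by positivity)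
    hq hqΛ φ hφ hφc hφ0 hφR hφκ
  have hkin : κ / R ^ 2 ≤ τ / 10 := by
    have h1 : κ ≤ R / 30000 := by rw [hRdef]; linarith
    have h2 : κ / R ^ 2 ≤ (R / 30000) / R ^ 2 := by
      apply div_le_div_of_nonneg_right h1 (by positivity)
    refine h2.trans (le_of_eq ?_)
    rw [hτdef]
    field_simp
    norm_num
  have herr : 88 * R ^ 2 * q ^ 2 * (18 * q + 3 * Λ) ≤ 1 / 10 * q := by
    have h1 : 18 * q + 3 * Λ ≤ 19 * q := by rw [hΛdef]; linarith
    have h2 : R ^ 2 * q ^ 2 ≤ 441 / 9000000 := by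
      calc R ^ 2 * q ^ 2 ≤ R ^ 2 * (441 * τ ^ 2) := mul_le_mul_of_nonneg_left hqhi (by positivity)
        _ = 441 * (R * τ) ^ 2 := by ring
        _ = 441 / 9000000 := by rw [hRτ]; norm_num
    calc 88 * R ^ 2 * q ^ 2 * (18 * q + 3 * Λ) = 88 * (R ^ 2 * q ^ 2) * (18 * q + 3 * Λ) := by ring
      _ ≤ 88 * (441 / 9000000) * (19 * q) := by
          apply mul_le_mul
          · apply mul_le_mul_of_nonneg_left h2 (by norm_num)
          · exact h1
          · positivity
          · norm_num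
      _ ≤ 1 / 10 * q := by nlinarith
  have hfin : τ ≤ 21 / 10 * q - 3 * Λ - 11 / 10 * (τ / 10) -
      88 * R ^ 2 * q ^ 2 * (18 * q + 3 * Λ) - κ / R ^ 2 := by
    rw [hΛdef] at herr ⊢
    linarith
  linarith

end Pool.Agent.Results.MP_791321_mp.FermionsBind
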